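import Mathlib
import Pool.Agent.N417.Sep.Defs
import Pool.Agent.N417.Sep.Lower3

/-!
# Separator exponent versus expansion exponent: `c* ≥ 1`

Every `c` in the set `A` of the problem satisfies `c ≥ 1`. More precisely, for every `δ ∈ (0,1)`
there is a monotone class with balanced separators of order `O(n^(1-δ))` whose expansion at depth
`⌈t^(δ/(1-δ))⌉` is at least `t - 1` for every `t ≥ 1`.
-/

set_option autoImplicit false

namespace Pool.Agent.Results.MP_2f3b43_co.CStarGeOne

open N417.Sep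

/-- Every `c ∈ A` is at least `1`; and the explicit classes giving this. -/
theorem result :
    (∀ c ∈ A, 1 ≤ c) ∧
    (∀ δ : ℝ, 0 < δ → δ < 1 → ∃ C : GraphClass, IsMonotone C ∧ HasSeparators C δ ∧
      ∀ f : ℕ → ℝ, ExpansionBoundedBy C f →
        ∀ t : ℕ, 1 ≤ t → (t : ℝ) - 1 ≤ f ⌈(t : ℝ) ^ (δ / (1 - δ))⌉₊) :=
  ⟨one_le_of_mem_A, explicit⟩

end Pool.Agent.Results.MP_2f3b43_co.CStarGeOne
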